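import Mathlib

set_option autoImplicit false

open Cardinal Set

namespace Pool.Agent.Lib.MP_04172d_lc

/-- The first coordinate of the point rotated by `θ`. -/
noncomputable def L (θ : ℝ) (p : ℝ × ℝ) : ℝ := Real.cos θ * p.1 - Real.sin θ * p.2

/-- determinant -/
def dt (a b : ℝ × ℝ) : ℝ := a.1 * b.2 - a.2 * b.1

theorem L_sub (θ : ℝ) (p q : ℝ × ℝ) : L θ (p - q) = L θ p - L θ q := by
  simp only [L, Prod.fst_sub, Prod.snd_sub]; ring

theorem dt_eq_zero_of_L {θ : ℝ} {a b : ℝ × ℝ} (ha : L θ a = 0) (hb : L θ b = 0) : dt a b = 0 := by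
  unfold L at ha hb
  unfold dt
  have h := Real.sin_sq_add_cos_sq θ
  have e1 : Real.cos θ * (a.1 * b.2 - a.2 * b.1) = 0 := by
    linear_combination b.2 * ha - a.2 * hb
  have e2 : Real.sin θ * (a.1 * b.2 - a.2 * b.1) = 0 := by
    linear_combination b.1 * ha - a.1 * hb
  linear_combination (-(a.1 * b.2 - a.2 * b.1)) * h + Real.cos θ * e1 + Real.sin θ * e2

theorem L_eq_zero_of_dt {θ : ℝ} {a b : ℝ × ℝ} (ha : L θ a = 0) (h0 : a ≠ 0) (h : dt a b = 0) :
    L θ b = 0 := by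
  unfold L at ha ⊢
  unfold dt at h
  have h0' : a.1 ≠ 0 ∨ a.2 ≠ 0 := by
    by_contra hc
    push Not at hc
    exact h0 (Prod.ext hc.1 hc.2)
  rcases h0' with h1 | h1
  · have : a.1 * (Real.cos θ * b.1 - Real.sin θ * b.2) = 0 := by
      linear_combination b.1 * ha - Real.sin θ * h
    exact (mul_eq_zero.1 this).resolve_left h1
  · have : a.2 * (Real.cos θ * b.1 - Real.sin θ * b.2) = 0 := by
      linear_combination b.2 * ha - Real.cos θ * h
    exact (mul_eq_zero.1 this).resolve_left h1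

/-- A state: the set of points so far, and for each angle the set of selected points so far. -/
abbrev St := Set (ℝ × ℝ) × (ℝ → Set (ℝ × ℝ))

/-- The invariant of the construction. -/
structure Inv (s : St) : Prop where
  sub : ∀ θ, s.2 θ ⊆ s.1
  ind : ∀ θ, LinearIndepOn ℚ id (s.2 θ)
  tr : ∀ θ, ∀ p ∈ s.1, ∀ q ∈ s.1, p ≠ q → L θ p = L θ q → (p ∈ s.2 θ ↔ q ∉ s.2 θ)
  col : ∀ θ, ∀ p ∈ s.1, ∀ q ∈ s.1, ∀ r ∈ s.1, p ≠ q → q ≠ r → p ≠ r →
    L θ p = L θ q → L θ p ≠ L θ r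
  act : ∀ θ, (s.2 θ).Nonempty → ∃ p ∈ s.1, ∃ q ∈ s.1, p ≠ q ∧ L θ p = L θ q

theorem iSup_fst {ι : Type} (f : ι → St) : (⨆ i, f i).1 = ⋃ i, (f i).1 := by
  rw [Prod.fst_iSup]; rfl

theorem iSup_snd {ι : Type} (f : ι → St) (θ : ℝ) : (⨆ i, f i).2 θ = ⋃ i, (f i).2 θ := by
  rw [Prod.snd_iSup, iSup_apply]; rfl

theorem inv_chain (ι : Type) [LinearOrder ι] (f : ι → St) (hf : Monotone f)
    (h : ∀ i, Inv (f i)) : Inv (⨆ i, f i) := by
  have mono1 : ∀ i j, i ≤ j → (f i).1 ⊆ (f j).1 := fun i j hij => (hf hij).1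
  have mono2 : ∀ θ i j, i ≤ j → (f i).2 θ ⊆ (f j).2 θ := fun θ i j hij => (hf hij).2 θ
  refine ⟨?_, ?_, ?_, ?_, ?_⟩
  · intro θ
    rw [iSup_fst, iSup_snd]
    exact iUnion_mono fun i => (h i).sub θ
  · intro θ
    rw [iSup_snd]
    refine linearIndepOn_iUnion_of_directed ?_ fun i => (h i).ind θ
    intro i j
    exact ⟨max i j, mono2 θ _ _ (le_max_left _ _), mono2 θ _ _ (le_max_right _ _)⟩
  · intro θ p hp q hq hne hL
    rw [iSup_fst, mem_iUnion] at hp hq
    obtain ⟨i, hi⟩ := hp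
    obtain ⟨j, hj⟩ := hq
    rw [iSup_snd, mem_iUnion, mem_iUnion]
    constructor
    · rintro ⟨k, hk⟩ ⟨l, hl⟩
      have h1 := mono1 i (max (max i j) (max k l)) ((le_max_left _ _).trans (le_max_left _ _)) hi
      have h2 := mono1 j (max (max i j) (max k l)) ((le_max_right _ _).trans (le_max_left _ _)) hj
      have h3 := mono2 θ k (max (max i j) (max k l)) ((le_max_left _ _).trans (le_max_right _ _)) hk
      have h4 := mono2 θ l (max (max i j) (max k l)) ((le_max_right _ _).trans (le_max_right _ _)) hl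
      exact ((h _).tr θ p h1 q h2 hne hL).1 h3 h4
    · intro hn
      push Not at hn
      have h1 := mono1 i (max i j) (le_max_left _ _) hi
      have h2 := mono1 j (max i j) (le_max_right _ _) hj
      exact ⟨max i j, ((h _).tr θ p h1 q h2 hne hL).2 (hn _)⟩
  · intro θ p hp q hq r hr h1 h2 h3 hL
    rw [iSup_fst, mem_iUnion] at hp hq hr
    obtain ⟨i, hi⟩ := hp
    obtain ⟨j, hj⟩ := hq
    obtain ⟨k, hk⟩ := hr
    exact (h (max i (max j k))).col θ p (mono1 _ _ (le_max_left _ _) hi) q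
      (mono1 _ _ ((le_max_left _ _).trans (le_max_right _ _)) hj) r
      (mono1 _ _ ((le_max_right _ _).trans (le_max_right _ _)) hk) h1 h2 h3 hL
  · intro θ hne
    rw [iSup_snd, nonempty_iUnion] at hne
    obtain ⟨i, hi⟩ := hne
    obtain ⟨p, hp, q, hq, h1, h2⟩ := (h i).act θ hi
    rw [iSup_fst]
    exact ⟨p, mem_iUnion.2 ⟨i, hp⟩, q, mem_iUnion.2 ⟨i, hq⟩, h1, h2⟩

/-- Avoiding fewer than continuum many countable sets of reals. -/
theorem avoid {M : Set (ℝ × ℝ)} (hM : #M < 𝔠) (E : M → M → M → Set ℝ)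
    (hE : ∀ a b c, (E a b c).Countable) (F : Set ℝ) (hF : #F < 𝔠) :
    ∃ t, t ∉ F ∧ ∀ a b c, t ∉ E a b c := by
  have h1 : #(⋃ i : M × M × M, E i.1 i.2.1 i.2.2 : Set ℝ) < 𝔠 := by
    refine (mk_iUnion_le _).trans_lt ?_
    refine mul_lt_of_lt aleph0_le_continuum ?_ ?_
    · rw [mk_prod, mk_prod]
      simp only [lift_id]
      exact mul_lt_of_lt aleph0_le_continuum hM (mul_lt_of_lt aleph0_le_continuum hM hM)
    · exact lt_of_le_of_lt (ciSup_le' fun i => (hE _ _ _).le_aleph0) aleph0_lt_continuum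
  have h2 : #(F ∪ (⋃ i : M × M × M, E i.1 i.2.1 i.2.2) : Set ℝ) < 𝔠 :=
    (mk_union_le _ _).trans_lt (add_lt_of_lt aleph0_le_continuum hF h1)
  have h3 : (F ∪ (⋃ i : M × M × M, E i.1 i.2.1 i.2.2) : Set ℝ) ≠ Set.univ := by
    intro h
    rw [h, mk_univ, mk_real] at h2
    exact lt_irrefl _ h2
  obtain ⟨t, ht⟩ := (ne_univ_iff_exists_notMem _).1 h3
  refine ⟨t, fun h => ht (Or.inl h), fun a b c h => ht (Or.inr ?_)⟩
  exact mem_iUnion.2 ⟨(a, b, c), h⟩

theorem card_span_lt {M : Set (ℝ × ℝ)} (hM : #M < 𝔠) :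
    #(Submodule.span ℚ M : Set (ℝ × ℝ)) < 𝔠 := by
  have h1 : (Submodule.span ℚ M : Set (ℝ × ℝ)) =
      range (Finsupp.linearCombination ℚ (fun x : M => (x : ℝ × ℝ))) := by
    rw [← LinearMap.coe_range, Finsupp.range_linearCombination, Subtype.range_coe]
  rw [h1]
  refine mk_range_le.trans_lt ?_
  rcases isEmpty_or_nonempty M with h | h
  · have : Subsingleton (M →₀ ℚ) := inferInstance
    exact lt_of_le_of_lt (le_one_iff_subsingleton.2 this) (nat_lt_continuum 1 |>.trans_eq' (by simp))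
  · rw [mk_finsupp_lift_of_infinite']
    simp only [lift_id]
    exact max_lt hM (by simpa using aleph0_lt_continuum)

theorem quad_finite (a b c : ℝ) (h : a ≠ 0 ∨ b ≠ 0 ∨ c ≠ 0) :
    {t : ℝ | a * t ^ 2 + b * t + c = 0}.Countable := by
  have hp : (Polynomial.C a * Polynomial.X ^ 2 + Polynomial.C b * Polynomial.X + Polynomial.C c :
      Polynomial ℝ) ≠ 0 := by
    intro h0
    have h2 : (Polynomial.C a * Polynomial.X ^ 2 + Polynomial.C b * Polynomial.X +
      Polynomial.C c : Polynomial ℝ).coeff 2 = a := by simp [Polynomial.coeff_C, Polynomial.coeff_X]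
    have h1 : (Polynomial.C a * Polynomial.X ^ 2 + Polynomial.C b * Polynomial.X +
      Polynomial.C c : Polynomial ℝ).coeff 1 = b := by simp [Polynomial.coeff_C, Polynomial.coeff_X]
    have h3 : (Polynomial.C a * Polynomial.X ^ 2 + Polynomial.C b * Polynomial.X +
      Polynomial.C c : Polynomial ℝ).coeff 0 = c := by simp [Polynomial.coeff_C, Polynomial.coeff_X]
    rw [h0] at h1 h2 h3
    simp only [Polynomial.coeff_zero] at h1 h2 h3
    rcases h with h | h | h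
    · exact h h2.symm
    · exact h h1.symm
    · exact h h3.symm
  refine Finite.countable ((Polynomial.finite_setOfPred_isRoot hp).subset ?_)
  intro t ht
  simp only [mem_ofPred_eq] at ht
  simp [Polynomial.IsRoot, ht]


/-- Adding one point, generic over the current set. -/
theorem add_one {s : St} (hs : Inv s) {x : ℝ × ℝ} (hx : x ∉ Submodule.span ℚ s.1)
    (hgen : ∀ θ, ∀ y ∈ s.1, ∀ y' ∈ s.1, y ≠ y' → L θ y = L θ y' → L θ x ≠ L θ y) :
    Inv ((insert x s.1, fun θ => s.2 θ ∪ {z | z = x ∧ ∃ y ∈ s.1, L θ y = L θ x ∧ y ∉ s.2 θ}) : St) := by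
  have hxM : x ∉ s.1 := fun h => hx (Submodule.subset_span h)
  have hxB : ∀ θ, x ∉ s.2 θ := fun θ h => hxM (hs.sub θ h)
  have key : ∀ θ, ∀ y ∈ s.1, L θ y = L θ x →
      (x ∈ (s.2 θ ∪ {z | z = x ∧ ∃ y ∈ s.1, L θ y = L θ x ∧ y ∉ s.2 θ} : Set (ℝ × ℝ)) ↔
        y ∉ (s.2 θ ∪ {z | z = x ∧ ∃ y ∈ s.1, L θ y = L θ x ∧ y ∉ s.2 θ} : Set (ℝ × ℝ))) := by
    intro θ y hy hyx
    have hne : y ≠ x := fun h => hxM (h ▸ hy)
    have h1 : y ∈ (s.2 θ ∪ {z | z = x ∧ ∃ y ∈ s.1, L θ y = L θ x ∧ y ∉ s.2 θ} : Set (ℝ × ℝ)) ↔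
        y ∈ s.2 θ := by
      constructor
      · rintro (h | h)
        · exact h
        · exact absurd h.1 hne
      · exact fun h => Or.inl h
    rw [h1]
    constructor
    · rintro (h | ⟨_, y', hy', h2, h3⟩)
      · exact absurd h (hxB θ)
      · by_cases hyy : y = y'
        · rw [hyy]; exact h3
        · exact absurd hyx.symm (hgen θ y hy y' hy' hyy (hyx.trans h2.symm))
    · intro h
      exact Or.inr ⟨rfl, y, hy, hyx, h⟩
  refine ⟨?_, ?_, ?_, ?_, ?_⟩
  · rintro θ z (hz | hz)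
    · exact Or.inr (hs.sub θ hz)
    · exact Or.inl hz.1
  · intro θ
    have h1 : LinearIndepOn ℚ id (insert x (s.2 θ)) :=
      (hs.ind θ).id_insert fun h => hx (Submodule.span_mono (hs.sub θ) h)
    refine h1.mono ?_
    rintro z (hz | hz)
    · exact Or.inr hz
    · exact Or.inl hz.1
  · rintro θ p (rfl | hp) q (rfl | hq) hne hL
    · exact absurd rfl hne
    · exact key θ q hq hL.symm
    · exact iff_not_comm.1 (key θ p hp hL)
    · have h1 : ∀ y ∈ s.1, (y ∈ (s.2 θ ∪ {z | z = x ∧ ∃ y ∈ s.1, L θ y = L θ x ∧ y ∉ s.2 θ} :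
          Set (ℝ × ℝ)) ↔ y ∈ s.2 θ) := by
        intro y hy
        have hne : y ≠ x := fun h => hxM (h ▸ hy)
        constructor
        · rintro (h | h)
          · exact h
          · exact absurd h.1 hne
        · exact fun h => Or.inl h
      show p ∈ (s.2 θ ∪ {z | z = x ∧ ∃ y ∈ s.1, L θ y = L θ x ∧ y ∉ s.2 θ} : Set (ℝ × ℝ)) ↔
        q ∉ (s.2 θ ∪ {z | z = x ∧ ∃ y ∈ s.1, L θ y = L θ x ∧ y ∉ s.2 θ} : Set (ℝ × ℝ))
      rw [h1 p hp, h1 q hq]
      exact hs.tr θ p hp q hq hne hL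
  · rintro θ p (rfl | hp) q (rfl | hq) r (rfl | hr) h1 h2 h3 hL hL'
    · exact h1 rfl
    · exact h1 rfl
    · exact h3 rfl
    · exact hgen θ q hq r hr h2 (hL.symm.trans hL') hL
    · exact h2 rfl
    · exact hgen θ p hp r hr h3 hL' hL.symm
    · exact hgen θ p hp q hq h1 hL hL'.symm
    · exact hs.col θ p hp q hq r hr h1 h2 h3 hL hL'
  · rintro θ ⟨z, hz | ⟨rfl, y, hy, h1, h2⟩⟩
    · obtain ⟨p, hp, q, hq, h1, h2⟩ := hs.act θ ⟨z, hz⟩
      exact ⟨p, Or.inr hp, q, Or.inr hq, h1, h2⟩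
    · exact ⟨z, Or.inl rfl, y, Or.inr hy, fun h => hxM (h ▸ hy), h1.symm⟩

/-- Adding a point on a line that has at most one point so far. -/
theorem add_on_line {s : St} (hs : Inv s) (hcard : #s.1 < 𝔠) (θ c : ℝ)
    (hline : ∀ p ∈ s.1, ∀ q ∈ s.1, L θ p = c → L θ q = c → p = q) :
    ∃ s' : St, s ≤ s' ∧ Inv s' ∧ (s'.1 \ s.1).Finite ∧ ∃ x ∈ s'.1, x ∉ s.1 ∧ L θ x = c := by
  let pt : ℝ → ℝ × ℝ := fun t =>
    (c * Real.cos θ + t * Real.sin θ, -(c * Real.sin θ) + t * Real.cos θ)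
  have hpt : ∀ t, L θ (pt t) = c := by
    intro t
    have h := Real.sin_sq_add_cos_sq θ
    simp only [L, pt]
    linear_combination c * h
  have hinj : Function.Injective pt := by
    intro t t' h
    have h := Real.sin_sq_add_cos_sq θ
    have h1 : c * Real.cos θ + t * Real.sin θ = c * Real.cos θ + t' * Real.sin θ :=
      congrArg Prod.fst ‹pt t = pt t'›
    have h2 : -(c * Real.sin θ) + t * Real.cos θ = -(c * Real.sin θ) + t' * Real.cos θ :=
      congrArg Prod.snd ‹pt t = pt t'›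
    linear_combination Real.sin θ * h1 + Real.cos θ * h2 + (-(t - t')) * h
  obtain ⟨t, ht1, ht2⟩ := avoid hcard
    (fun y y' _ => {t | (y : ℝ × ℝ) ≠ y' ∧ dt ((y' : ℝ × ℝ) - y) (pt t - y) = 0}) (by
      intro y y' _
      by_cases hyy : (y : ℝ × ℝ) = y'
      · simp [hyy]
      · have hq := quad_finite 0
          ((((y' : ℝ × ℝ).1 - (y : ℝ × ℝ).1) * Real.cos θ) -
            ((y' : ℝ × ℝ).2 - (y : ℝ × ℝ).2) * Real.sin θ)
          (((y' : ℝ × ℝ).1 - (y : ℝ × ℝ).1) * (-(c * Real.sin θ) - (y : ℝ × ℝ).2) -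
            ((y' : ℝ × ℝ).2 - (y : ℝ × ℝ).2) * (c * Real.cos θ - (y : ℝ × ℝ).1)) (by
          right
          by_contra hc
          push Not at hc
          obtain ⟨hc1, hc2⟩ := hc
          -- direction of y' - y is that of the line
          have e1 : L θ ((y' : ℝ × ℝ) - y) = 0 := by
            simp only [L, Prod.fst_sub, Prod.snd_sub]
            linear_combination hc1
          have e2 : dt ((y' : ℝ × ℝ) - y) (pt 0 - y) = 0 := by
            simp only [dt, pt, Prod.fst_sub, Prod.snd_sub]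
            linear_combination hc2
          have e3 := L_eq_zero_of_dt e1 (sub_ne_zero.2 (Ne.symm hyy)) e2
          rw [L_sub, hpt] at e3
          rw [L_sub] at e1
          have e4 : L θ (y : ℝ × ℝ) = c := by linarith
          have e5 : L θ (y' : ℝ × ℝ) = c := by linarith
          exact hyy (hline _ y.2 _ y'.2 e4 e5))
        refine hq.mono ?_
        rintro t ⟨_, ht⟩
        simp only [dt, pt, Prod.fst_sub, Prod.snd_sub] at ht
        simp only [mem_ofPred_eq]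
        linear_combination ht)
    {t | pt t ∈ Submodule.span ℚ s.1} (by
      refine lt_of_le_of_lt ?_ (card_span_lt hcard)
      refine mk_le_of_injective (f := fun t => ⟨pt t.1, t.2⟩) ?_
      intro t t' h
      exact Subtype.ext (hinj (congrArg Subtype.val h)))
  have hx : pt t ∉ Submodule.span ℚ s.1 := ht1
  have hxM : pt t ∉ s.1 := fun h => hx (Submodule.subset_span h)
  refine ⟨_, ?_, add_one hs hx ?_, ?_, pt t, Or.inl rfl, hxM, hpt t⟩
  · exact ⟨subset_insert _ _, fun φ => subset_union_left⟩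
  · intro φ y hy y' hy' hne hL h
    refine ht2 ⟨y, hy⟩ ⟨y', hy'⟩ ⟨y, hy⟩ ⟨hne, ?_⟩
    refine dt_eq_zero_of_L (θ := φ) ?_ ?_
    · rw [L_sub, hL, sub_self]
    · rw [L_sub, h, sub_self]
  · refine (finite_singleton (pt t)).subset ?_
    rintro z ⟨h1 | h1, h2⟩
    · exact h1
    · exact absurd h1 h2

/-- The line task. -/
theorem line_task {s : St} (hs : Inv s) (hcard : #s.1 < 𝔠) (θ c : ℝ) :
    ∃ s' : St, s ≤ s' ∧ Inv s' ∧ (s'.1 \ s.1).Finite ∧
      ∃ x ∈ s'.1, ∃ y ∈ s'.1, x ≠ y ∧ L θ x = c ∧ L θ y = c := by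
  by_cases hline : ∀ p ∈ s.1, ∀ q ∈ s.1, L θ p = c → L θ q = c → p = q
  · obtain ⟨s1, hle1, hs1, hf1, x, hx1, hx2, hx3⟩ := add_on_line hs hcard θ c hline
    have hcard1 : #s1.1 < 𝔠 := by
      have : s1.1 ⊆ s.1 ∪ (s1.1 \ s.1) := by
        intro z hz
        by_cases h : z ∈ s.1
        · exact Or.inl h
        · exact Or.inr ⟨hz, h⟩
      refine (mk_le_mk_of_subset this).trans_lt ((mk_union_le _ _).trans_lt ?_)
      exact add_lt_of_lt aleph0_le_continuum hcard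
        (lt_of_le_of_lt hf1.countable.le_aleph0 aleph0_lt_continuum)
    by_cases hline1 : ∀ p ∈ s1.1, ∀ q ∈ s1.1, L θ p = c → L θ q = c → p = q
    · obtain ⟨s2, hle2, hs2, hf2, y, hy1, hy2, hy3⟩ := add_on_line hs1 hcard1 θ c hline1
      refine ⟨s2, hle1.trans hle2, hs2, ?_, x, hle2.1 hx1, y, hy1, ?_, hx3, hy3⟩
      · refine (hf1.union hf2).subset ?_
        rintro z ⟨hz1, hz2⟩
        by_cases h : z ∈ s1.1
        · exact Or.inl ⟨h, hz2⟩
        · exact Or.inr ⟨hz1, h⟩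
      · rintro rfl
        exact hy2 hx1
    · push Not at hline1
      obtain ⟨p, hp, q, hq, h1, h2, h3⟩ := hline1
      exact ⟨s1, hle1, hs1, hf1, p, hp, q, hq, h3, h1, h2⟩
  · push Not at hline
    obtain ⟨p, hp, q, hq, h1, h2, h3⟩ := hline
    exact ⟨s, le_rfl, hs, by simp, p, hp, q, hq, h3, h1, h2⟩

/-- The direction `θ` is determined by two points of `M`. -/
def Act (M : Set (ℝ × ℝ)) (θ : ℝ) : Prop := ∃ y ∈ M, ∃ y' ∈ M, y ≠ y' ∧ L θ y = L θ y'

/-- The new selected points when adding the generic pair `p`, `q` for the angle `θ`. -/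
def newSel (s : St) (θ : ℝ) (p q : ℝ × ℝ) (φ : ℝ) : Set (ℝ × ℝ) :=
  {x | (x = p ∨ x = q) ∧ (φ = θ ∨ (¬ Act s.1 φ ∧
    ((∃ y ∈ s.1, L φ y = L φ x) ∨ (x = p ∧ L φ p = L φ q))))}

/-- Adding a generic pair. -/
theorem add_two {s : St} (hs : Inv s) {θ : ℝ} (hact : Act s.1 θ) {p q v : ℝ × ℝ}
    (hv : v ∉ Submodule.span ℚ (s.2 θ)) (k : ℕ) (hk : v = p + k • q)
    (hp : p ∉ Submodule.span ℚ (insert v s.1)) (hq : q ∉ s.1)
    (c2 : ∀ φ, Act s.1 φ → ∀ x ∈ s.1, L φ p ≠ L φ x)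
    (c3 : ∀ φ, Act s.1 φ → ∀ x ∈ s.1, L φ q ≠ L φ x)
    (c4 : ∀ φ, Act s.1 φ → L φ p ≠ L φ q)
    (c5 : ∀ φ, ∀ x ∈ s.1, L φ p = L φ x → L φ q ≠ L φ x) :
    Inv ((insert p (insert q s.1), fun φ => s.2 φ ∪ newSel s θ p q φ) : St) := by
  have hpM : p ∉ s.1 := fun h => hp (Submodule.subset_span (mem_insert_of_mem _ h))
  have hpq : p ≠ q := fun h => c4 θ hact (by rw [h])
  have hv0 : v ≠ 0 := fun h => hv (h ▸ Submodule.zero_mem _)
  -- independence
  have hind : ∀ B : Set (ℝ × ℝ), B ⊆ s.1 → LinearIndepOn ℚ id B → v ∉ Submodule.span ℚ B →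
      LinearIndepOn ℚ id (insert q (insert p B)) := by
    intro B hB hB' hvB
    have h1 : LinearIndepOn ℚ id (insert p B) :=
      hB'.id_insert fun h => hp (Submodule.span_mono (hB.trans (subset_insert _ _)) h)
    refine h1.id_insert fun h => ?_
    have h2 : v ∈ Submodule.span ℚ (insert p B) := by
      rw [hk]
      exact Submodule.add_mem _ (Submodule.subset_span (mem_insert _ _))
        (Submodule.smul_of_tower_mem _ k h)
    have h3 := mem_span_insert_exchange h2 hvB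
    exact hp (Submodule.span_mono (insert_subset_insert hB) h3)
  have hBM : ∀ φ, ∀ x ∈ s.1, (x ∈ s.2 φ ∪ newSel s θ p q φ ↔ x ∈ s.2 φ) := by
    intro φ x hx
    constructor
    · rintro (h | h)
      · exact h
      · rcases h.1 with h | h
        · exact absurd (h ▸ hx) hpM
        · exact absurd (h ▸ hx) hq
    · exact fun h => Or.inl h
  have hB0 : ∀ φ, ¬ Act s.1 φ → ∀ x, x ∉ s.2 φ := by
    intro φ hφ x hx
    exact hφ (hs.act φ ⟨x, hx⟩)
  have hpB : ∀ φ, p ∉ s.2 φ := fun φ h => hpM (hs.sub φ h)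
  have hqB : ∀ φ, q ∉ s.2 φ := fun φ h => hq (hs.sub φ h)
  -- pairs with one new point
  have keyp : ∀ φ, ∀ y ∈ s.1, L φ p = L φ y →
      (p ∈ s.2 φ ∪ newSel s θ p q φ ∧ y ∉ s.2 φ ∪ newSel s θ p q φ) := by
    intro φ y hy hL
    have hna : ¬ Act s.1 φ := fun h => c2 φ h y hy hL
    refine ⟨Or.inr ⟨Or.inl rfl, Or.inr ⟨hna, Or.inl ⟨y, hy, hL.symm⟩⟩⟩, ?_⟩
    rw [hBM φ y hy]
    exact hB0 φ hna y
  have keyq : ∀ φ, ∀ y ∈ s.1, L φ q = L φ y →
      (q ∈ s.2 φ ∪ newSel s θ p q φ ∧ y ∉ s.2 φ ∪ newSel s θ p q φ) := by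
    intro φ y hy hL
    have hna : ¬ Act s.1 φ := fun h => c3 φ h y hy hL
    refine ⟨Or.inr ⟨Or.inr rfl, Or.inr ⟨hna, Or.inl ⟨y, hy, hL.symm⟩⟩⟩, ?_⟩
    rw [hBM φ y hy]
    exact hB0 φ hna y
  have keypq : ∀ φ, L φ p = L φ q →
      (p ∈ s.2 φ ∪ newSel s θ p q φ ∧ q ∉ s.2 φ ∪ newSel s θ p q φ) := by
    intro φ hL
    have hna : ¬ Act s.1 φ := fun h => c4 φ h hL
    refine ⟨Or.inr ⟨Or.inl rfl, Or.inr ⟨hna, Or.inr ⟨rfl, hL⟩⟩⟩, ?_⟩
    rintro (h | ⟨_, h | ⟨_, ⟨y, hy, h⟩ | ⟨h, _⟩⟩⟩)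
    · exact hqB φ h
    · exact hna (h ▸ hact)
    · exact c5 φ y hy (hL.trans h.symm) h.symm
    · exact hpq h.symm
  refine ⟨?_, ?_, ?_, ?_, ?_⟩
  · rintro φ z (hz | ⟨hz | hz, _⟩)
    · exact Or.inr (Or.inr (hs.sub φ hz))
    · exact Or.inl hz
    · exact Or.inr (Or.inl hz)
  · intro φ
    show LinearIndepOn ℚ id (s.2 φ ∪ newSel s θ p q φ)
    by_cases h1 : φ = θ
    · refine (hind (s.2 φ) (hs.sub φ) (hs.ind φ) (h1 ▸ hv)).mono ?_
      rintro z (hz | ⟨hz | hz, _⟩)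
      · exact Or.inr (Or.inr hz)
      · exact Or.inr (Or.inl hz)
      · exact Or.inl hz
    · by_cases h2 : Act s.1 φ
      · refine (hs.ind φ).mono ?_
        rintro z (hz | ⟨_, h | ⟨h, _⟩⟩)
        · exact hz
        · exact absurd h h1
        · exact absurd h2 h
      · refine (hind ∅ (empty_subset _) (linearIndepOn_empty ℚ id) ?_).mono ?_
        · rw [Submodule.span_empty, Submodule.mem_bot]
          exact hv0
        · rintro z (hz | ⟨hz | hz, _⟩)
          · exact absurd hz (hB0 φ h2 z)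
          · exact Or.inr (Or.inl hz)
          · exact Or.inl hz
  · rintro φ a (rfl | rfl | ha) b (rfl | rfl | hb) hne hL
    · exact absurd rfl hne
    · have := keypq φ hL
      exact iff_of_true this.1 this.2
    · have := keyp φ b hb hL
      exact iff_of_true this.1 this.2
    · have := keypq φ hL.symm
      exact iff_of_false this.2 (not_not_intro this.1)
    · exact absurd rfl hne
    · have := keyq φ b hb hL
      exact iff_of_true this.1 this.2
    · have := keyp φ a ha hL.symm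
      exact iff_of_false this.2 (not_not_intro this.1)
    · have := keyq φ a ha hL.symm
      exact iff_of_false this.2 (not_not_intro this.1)
    · show a ∈ s.2 φ ∪ newSel s θ p q φ ↔ b ∉ s.2 φ ∪ newSel s θ p q φ
      rw [hBM φ a ha, hBM φ b hb]
      exact hs.tr φ a ha b hb hne hL
  · -- no three points on a line
    have two : ∀ φ, ∀ a ∈ s.1, ∀ b ∈ s.1, a ≠ b → L φ a = L φ b →
        L φ p ≠ L φ a ∧ L φ q ≠ L φ a := by
      intro φ a ha b hb hab hL
      exact ⟨c2 φ ⟨a, ha, b, hb, hab, hL⟩ a ha, c3 φ ⟨a, ha, b, hb, hab, hL⟩ a ha⟩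
    rintro φ a (rfl | rfl | ha) b (rfl | rfl | hb) c (rfl | rfl | hc) h1 h2 h3 hL hL'
    · exact h1 rfl
    · exact h1 rfl
    · exact h1 rfl
    · exact h3 rfl
    · exact h2 rfl
    · exact c5 φ c hc hL' (hL.symm.trans hL')
    · exact h3 rfl
    · exact c5 φ b hb hL (hL'.symm.trans hL)
    · exact (two φ b hb c hc h2 (hL.symm.trans hL')).1 hL
    · exact h2 rfl
    · exact h3 rfl
    · exact c5 φ c hc (hL.symm.trans hL') hL'
    · exact h1 rfl
    · exact h1 rfl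
    · exact h1 rfl
    · exact c5 φ b hb (hL'.symm.trans hL) hL
    · exact h3 rfl
    · exact (two φ b hb c hc h2 (hL.symm.trans hL')).2 hL
    · exact h2 rfl
    · exact c5 φ a ha hL.symm hL'.symm
    · exact (two φ a ha c hc h3 hL').1 hL.symm
    · exact c5 φ a ha hL'.symm hL.symm
    · exact h2 rfl
    · exact (two φ a ha c hc h3 hL').2 hL.symm
    · exact (two φ a ha b hb h1 hL).1 hL'.symm
    · exact (two φ a ha b hb h1 hL).2 hL'.symm
    · exact hs.col φ a ha b hb c hc h1 h2 h3 hL hL'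
  · rintro φ ⟨z, hz | ⟨hz, h⟩⟩
    · obtain ⟨a, ha, b, hb, h1, h2⟩ := hs.act φ ⟨z, hz⟩
      exact ⟨a, Or.inr (Or.inr ha), b, Or.inr (Or.inr hb), h1, h2⟩
    · rcases h with h | ⟨_, ⟨y, hy, h⟩ | ⟨_, h⟩⟩
      · obtain ⟨a, ha, b, hb, h1, h2⟩ := hact
        exact ⟨a, Or.inr (Or.inr ha), b, Or.inr (Or.inr hb), h1, h ▸ h2⟩
      · rcases hz with rfl | rfl
        · exact ⟨z, Or.inl rfl, y, Or.inr (Or.inr hy), fun h' => hpM (h' ▸ hy), h.symm⟩
        · exact ⟨z, Or.inr (Or.inl rfl), y, Or.inr (Or.inr hy), fun h' => hq (h' ▸ hy), h.symm⟩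
      · exact ⟨p, Or.inl rfl, q, Or.inr (Or.inl rfl), hpq, h⟩

theorem exists_angle (w : ℝ × ℝ) : ∃ φ : ℝ, L φ w = 0 := by
  by_cases hw : (⟨w.2, w.1⟩ : ℂ) = 0
  · have h1 : w.2 = 0 := congrArg Complex.re hw
    have h2 : w.1 = 0 := congrArg Complex.im hw
    exact ⟨0, by simp [L, h1, h2]⟩
  · refine ⟨Complex.arg ⟨w.2, w.1⟩, ?_⟩
    simp only [L, Complex.cos_arg hw, Complex.sin_arg]
    ring

/-- The span task, once the direction is determined by two points. -/
theorem span_task_aux {s : St} (hs : Inv s) (hcard : #s.1 < 𝔠) (θ : ℝ) (hact : Act s.1 θ)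
    (v : ℝ × ℝ) : ∃ s' : St, s ≤ s' ∧ Inv s' ∧ (s'.1 \ s.1).Finite ∧
      v ∈ Submodule.span ℚ (s'.2 θ) := by
  by_cases hv : v ∈ Submodule.span ℚ (s.2 θ)
  · exact ⟨s, le_rfl, hs, by simp, hv⟩
  have hv0 : v ≠ 0 := fun h => hv (h ▸ Submodule.zero_mem _)
  -- a good coefficient
  obtain ⟨k, hk0, hk⟩ : ∃ k : ℕ, k ≠ 0 ∧ ∀ x ∈ s.1, ((k : ℝ) + 1) • x ≠ v := by
    by_contra hc
    push Not at hc
    obtain ⟨a, ha, ha'⟩ := hc 1 one_ne_zero
    obtain ⟨b, hb, hb'⟩ := hc 2 two_ne_zero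
    obtain ⟨c, hc, hc'⟩ := hc 3 three_ne_zero
    have ha2 : (2 : ℝ) • a = v := by rw [← ha']; norm_num
    have hb2 : (3 : ℝ) • b = v := by rw [← hb']; norm_num
    have hc2 : (4 : ℝ) • c = v := by rw [← hc']; norm_num
    obtain ⟨φ, hφ⟩ := exists_angle v
    have hL : ∀ (r : ℝ) (x : ℝ × ℝ), L φ (r • x) = r * L φ x := by
      intro r x; simp only [L, Prod.smul_fst, Prod.smul_snd, smul_eq_mul]; ring
    have e1 : L φ a = 0 := by
      have := hL 2 a; rw [ha2, hφ] at this; linarith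
    have e2 : L φ b = 0 := by
      have := hL 3 b; rw [hb2, hφ] at this; linarith
    have e3 : L φ c = 0 := by
      have := hL 4 c; rw [hc2, hφ] at this; linarith
    have av : a = (1 / 2 : ℝ) • v := by rw [← ha2, smul_smul]; norm_num
    have bv : b = (1 / 3 : ℝ) • v := by rw [← hb2, smul_smul]; norm_num
    have cv : c = (1 / 4 : ℝ) • v := by rw [← hc2, smul_smul]; norm_num
    refine hs.col φ a ha b hb c hc ?_ ?_ ?_ (e1.trans e2.symm) (e1.trans e3.symm)
    · intro h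
      rw [av, bv, ← sub_eq_zero, ← sub_smul, smul_eq_zero] at h
      rcases h with h | h
      · norm_num at h
      · exact hv0 h
    · intro h
      rw [bv, cv, ← sub_eq_zero, ← sub_smul, smul_eq_zero] at h
      rcases h with h | h
      · norm_num at h
      · exact hv0 h
    · intro h
      rw [av, cv, ← sub_eq_zero, ← sub_smul, smul_eq_zero] at h
      rcases h with h | h
      · norm_num at h
      · exact hv0 h
  have hkR : (k : ℝ) ≠ 0 := by exact_mod_cast hk0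
  have hk1R : (k : ℝ) + 1 ≠ 0 := by positivity
  let P : ℝ → ℝ × ℝ := fun t => (t, t ^ 2)
  let Q : ℝ → ℝ × ℝ := fun t => ((v.1 - t) / k, (v.2 - t ^ 2) / k)
  have hPQ : ∀ t, v = P t + k • Q t := by
    intro t
    refine Prod.ext ?_ ?_
    · show v.1 = t + k • ((v.1 - t) / k)
      rw [nsmul_eq_mul, mul_div_cancel₀ _ hkR]; ring
    · show v.2 = t ^ 2 + k • ((v.2 - t ^ 2) / k)
      rw [nsmul_eq_mul, mul_div_cancel₀ _ hkR]; ring
  have hcard' : #(insert v s.1 : Set (ℝ × ℝ)) < 𝔠 := by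
    refine (mk_insert_le).trans_lt ?_
    exact add_lt_of_lt aleph0_le_continuum hcard (nat_lt_continuum 1 |>.trans_eq' (by simp))
  obtain ⟨t, ht1, ht2⟩ := avoid hcard
    (fun y y' x => {t | ((y : ℝ × ℝ) ≠ y' ∧ (dt ((y' : ℝ × ℝ) - y) (P t - x) = 0 ∨
        dt ((y' : ℝ × ℝ) - y) (Q t - x) = 0 ∨ dt ((y' : ℝ × ℝ) - y) (P t - Q t) = 0)) ∨
        dt (P t - x) (Q t - x) = 0}) (by
      intro y y' x
      have hx := hk x x.2
      have h4 : {t | dt (P t - x) (Q t - x) = 0}.Countable := by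
        refine (quad_finite (((k : ℝ) + 1) * (x : ℝ × ℝ).1 - v.1)
          (v.2 - ((k : ℝ) + 1) * (x : ℝ × ℝ).2)
          ((x : ℝ × ℝ).2 * v.1 - (x : ℝ × ℝ).1 * v.2) ?_).mono ?_
        · by_contra hc
          push Not at hc
          refine hx (Prod.ext ?_ ?_)
          · simp only [Prod.smul_fst, smul_eq_mul]; linarith [hc.1]
          · simp only [Prod.smul_snd, smul_eq_mul]; linarith [hc.2.1]
        · intro t ht
          simp only [mem_ofPred_eq, dt, P, Q, Prod.fst_sub, Prod.snd_sub] at ht ⊢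
          have e1 : (t - (x : ℝ × ℝ).1) * ((v.2 - t ^ 2) / k - (x : ℝ × ℝ).2) -
              (t ^ 2 - (x : ℝ × ℝ).2) * ((v.1 - t) / k - (x : ℝ × ℝ).1) =
              ((((k : ℝ) + 1) * (x : ℝ × ℝ).1 - v.1) * t ^ 2 +
              (v.2 - ((k : ℝ) + 1) * (x : ℝ × ℝ).2) * t +
              ((x : ℝ × ℝ).2 * v.1 - (x : ℝ × ℝ).1 * v.2)) / k := by
            field_simp; ring
          rw [e1, div_eq_zero_iff] at ht
          exact ht.resolve_right hkR
      by_cases hyy : (y : ℝ × ℝ) = y'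
      · refine h4.mono ?_
        rintro t (⟨h, _⟩ | h)
        · exact absurd hyy h
        · exact h
      · have hd : (y' : ℝ × ℝ).1 - (y : ℝ × ℝ).1 ≠ 0 ∨ (y' : ℝ × ℝ).2 - (y : ℝ × ℝ).2 ≠ 0 := by
          by_contra hc
          push Not at hc
          refine hyy (Prod.ext ?_ ?_)
          · linarith [hc.1]
          · linarith [hc.2]
        set d1 := (y' : ℝ × ℝ).1 - (y : ℝ × ℝ).1 with hd1
        set d2 := (y' : ℝ × ℝ).2 - (y : ℝ × ℝ).2 with hd2
        have h1 : {t | dt ((y' : ℝ × ℝ) - y) (P t - x) = 0}.Countable := by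
          refine (quad_finite d1 (-d2) (d2 * (x : ℝ × ℝ).1 - d1 * (x : ℝ × ℝ).2) ?_).mono ?_
          · rcases hd with h | h
            · exact Or.inl h
            · exact Or.inr (Or.inl (neg_ne_zero.2 h))
          · intro t ht
            simp only [mem_ofPred_eq, dt, P, Prod.fst_sub, Prod.snd_sub] at ht ⊢
            rw [← hd1, ← hd2] at ht
            linear_combination ht
        have h2 : {t | dt ((y' : ℝ × ℝ) - y) (Q t - x) = 0}.Countable := by
          refine (quad_finite (-d1) d2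
            (d1 * v.2 - d2 * v.1 + k * (d2 * (x : ℝ × ℝ).1 - d1 * (x : ℝ × ℝ).2)) ?_).mono ?_
          · rcases hd with h | h
            · exact Or.inl (neg_ne_zero.2 h)
            · exact Or.inr (Or.inl h)
          · intro t ht
            simp only [mem_ofPred_eq, dt, Q, Prod.fst_sub, Prod.snd_sub] at ht ⊢
            rw [← hd1, ← hd2] at ht
            have e1 : d1 * ((v.2 - t ^ 2) / k - (x : ℝ × ℝ).2) -
                d2 * ((v.1 - t) / k - (x : ℝ × ℝ).1) =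
                (-d1 * t ^ 2 + d2 * t +
                (d1 * v.2 - d2 * v.1 + k * (d2 * (x : ℝ × ℝ).1 - d1 * (x : ℝ × ℝ).2))) / k := by
              field_simp; ring
            rw [e1, div_eq_zero_iff] at ht
            exact ht.resolve_right hkR
        have h3 : {t | dt ((y' : ℝ × ℝ) - y) (P t - Q t) = 0}.Countable := by
          refine (quad_finite (d1 * (k + 1)) (-(d2 * (k + 1))) (d2 * v.1 - d1 * v.2) ?_).mono ?_
          · rcases hd with h | h
            · exact Or.inl (mul_ne_zero h hk1R)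
            · exact Or.inr (Or.inl (neg_ne_zero.2 (mul_ne_zero h hk1R)))
          · intro t ht
            simp only [mem_ofPred_eq, dt, P, Q, Prod.fst_sub, Prod.snd_sub] at ht ⊢
            rw [← hd1, ← hd2] at ht
            have e1 : d1 * (t ^ 2 - (v.2 - t ^ 2) / k) - d2 * (t - (v.1 - t) / k) =
                (d1 * (k + 1) * t ^ 2 + -(d2 * (k + 1)) * t + (d2 * v.1 - d1 * v.2)) / k := by
              field_simp; ring
            rw [e1, div_eq_zero_iff] at ht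
            exact ht.resolve_right hkR
        refine (((h1.union h2).union h3).union h4).mono ?_
        rintro t (⟨_, h | h | h⟩ | h)
        · exact Or.inl (Or.inl (Or.inl h))
        · exact Or.inl (Or.inl (Or.inr h))
        · exact Or.inl (Or.inr h)
        · exact Or.inr h)
    {t | P t ∈ Submodule.span ℚ (insert v s.1)} (by
      refine lt_of_le_of_lt ?_ (card_span_lt hcard')
      refine mk_le_of_injective (f := fun t => ⟨P t.1, t.2⟩) ?_
      intro t t' h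
      exact Subtype.ext (congrArg Prod.fst (congrArg Subtype.val h)))
  have hp : P t ∉ Submodule.span ℚ (insert v s.1) := ht1
  have hq : Q t ∉ s.1 := by
    intro h
    apply hp
    have : P t = v - k • Q t := by rw [eq_sub_iff_add_eq]; exact (hPQ t).symm
    rw [this]
    exact Submodule.sub_mem _ (Submodule.subset_span (mem_insert _ _))
      (Submodule.smul_of_tower_mem _ k (Submodule.subset_span (mem_insert_of_mem _ h)))
  have hpar : ∀ φ (a b c d : ℝ × ℝ), L φ a = L φ b → L φ c = L φ d → dt (b - a) (c - d) = 0 := by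
    intro φ a b c d h1 h2
    refine dt_eq_zero_of_L (θ := φ) ?_ ?_
    · rw [L_sub, h1, sub_self]
    · rw [L_sub, h2, sub_self]
  have hinv := add_two hs hact hv k (hPQ t) hp hq
    (by
      rintro φ ⟨y, hy, y', hy', hne, hL⟩ x hx h
      exact ht2 ⟨y, hy⟩ ⟨y', hy'⟩ ⟨x, hx⟩ (Or.inl ⟨hne, Or.inl (hpar φ _ _ _ _ hL h)⟩))
    (by
      rintro φ ⟨y, hy, y', hy', hne, hL⟩ x hx h
      exact ht2 ⟨y, hy⟩ ⟨y', hy'⟩ ⟨x, hx⟩ (Or.inl ⟨hne, Or.inr (Or.inl (hpar φ _ _ _ _ hL h))⟩))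
    (by
      rintro φ ⟨y, hy, y', hy', hne, hL⟩ h
      exact ht2 ⟨y, hy⟩ ⟨y', hy'⟩ ⟨y, hy⟩ (Or.inl ⟨hne, Or.inr (Or.inr (hpar φ _ _ _ _ hL h))⟩))
    (by
      intro φ x hx h1 h2
      refine ht2 ⟨x, hx⟩ ⟨x, hx⟩ ⟨x, hx⟩ (Or.inr ?_)
      exact hpar φ _ _ _ _ h1.symm h2)
  refine ⟨_, ?_, hinv, ?_, ?_⟩
  · exact ⟨(subset_insert _ _).trans (subset_insert _ _), fun φ => subset_union_left⟩
  · refine ((finite_singleton (Q t)).insert (P t)).subset ?_
    rintro z ⟨h1 | h1 | h1, h2⟩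
    · exact Or.inl h1
    · exact Or.inr h1
    · exact absurd h1 h2
  · have h1 : v = P t + k • Q t := hPQ t
    rw [h1]
    refine Submodule.add_mem _ (Submodule.subset_span (Or.inr ⟨Or.inl rfl, Or.inl rfl⟩))
      (Submodule.smul_of_tower_mem _ k (Submodule.subset_span (Or.inr ⟨Or.inr rfl, Or.inl rfl⟩)))

theorem card_lt_of_finite_diff {A B : Set (ℝ × ℝ)} (hA : #A < 𝔠) (h : (B \ A).Finite) :
    #B < 𝔠 := by
  have : B ⊆ A ∪ (B \ A) := by
    intro z hz
    by_cases h : z ∈ A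
    · exact Or.inl h
    · exact Or.inr ⟨hz, h⟩
  refine (mk_le_mk_of_subset this).trans_lt ((mk_union_le _ _).trans_lt ?_)
  exact add_lt_of_lt aleph0_le_continuum hA
    (lt_of_le_of_lt h.countable.le_aleph0 aleph0_lt_continuum)

/-- The span task. -/
theorem span_task {s : St} (hs : Inv s) (hcard : #s.1 < 𝔠) (θ : ℝ)
    (v : ℝ × ℝ) : ∃ s' : St, s ≤ s' ∧ Inv s' ∧ (s'.1 \ s.1).Finite ∧
      v ∈ Submodule.span ℚ (s'.2 θ) := by
  obtain ⟨s1, hle1, hs1, hf1, x, hx, y, hy, hxy, h1, h2⟩ := line_task hs hcard θ 0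
  obtain ⟨s2, hle2, hs2, hf2, h3⟩ := span_task_aux hs1 (card_lt_of_finite_diff hcard hf1) θ
    ⟨x, hx, y, hy, hxy, h1.trans h2.symm⟩ v
  refine ⟨s2, hle1.trans hle2, hs2, ?_, h3⟩
  refine (hf1.union hf2).subset ?_
  rintro z ⟨hz1, hz2⟩
  by_cases h : z ∈ s1.1
  · exact Or.inl ⟨h, hz2⟩
  · exact Or.inr ⟨hz1, h⟩

end Pool.Agent.Lib.MP_04172d_lc
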