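import Mathlib

set_option autoImplicit false

open Cardinal Set

namespace Pool.Agent.Lib.MP_04172d_lc

/-- One step of the recursion. -/
noncomputable def next {V T S : Type} [CompleteLattice S] (M : S → Set V) (Inv : S → Prop)
    (Task : T → S → Prop)
    (step : ∀ s, Inv s → #(M s) < #T → ∀ t, ∃ s', s ≤ s' ∧ Inv s' ∧ (M s' \ M s).Finite ∧ Task t s')
    (t : T) (s : S) : S := by
  classical
  exact if h : Inv s ∧ #(M s) < #T then Classical.choose (step s h.1 h.2 t) else s

theorem le_next {V T S : Type} [CompleteLattice S] (M : S → Set V) (Inv : S → Prop)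
    (Task : T → S → Prop)
    (step : ∀ s, Inv s → #(M s) < #T → ∀ t, ∃ s', s ≤ s' ∧ Inv s' ∧ (M s' \ M s).Finite ∧ Task t s')
    (t : T) (s : S) : s ≤ next M Inv Task step t s := by
  unfold next
  split_ifs with h
  · exact (Classical.choose_spec (step s h.1 h.2 t)).1
  · exact le_rfl

theorem next_inv {V T S : Type} [CompleteLattice S] (M : S → Set V) (Inv : S → Prop)
    (Task : T → S → Prop)
    (step : ∀ s, Inv s → #(M s) < #T → ∀ t, ∃ s', s ≤ s' ∧ Inv s' ∧ (M s' \ M s).Finite ∧ Task t s')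
    (t : T) (s : S) (hi : Inv s) : Inv (next M Inv Task step t s) := by
  unfold next
  split_ifs with h
  · exact (Classical.choose_spec (step s h.1 h.2 t)).2.1
  · exact hi

theorem next_fin {V T S : Type} [CompleteLattice S] (M : S → Set V) (Inv : S → Prop)
    (Task : T → S → Prop)
    (step : ∀ s, Inv s → #(M s) < #T → ∀ t, ∃ s', s ≤ s' ∧ Inv s' ∧ (M s' \ M s).Finite ∧ Task t s')
    (t : T) (s : S) : (M (next M Inv Task step t s) \ M s).Finite := by
  unfold next
  split_ifs with h
  · exact (Classical.choose_spec (step s h.1 h.2 t)).2.2.1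
  · simp

theorem next_task {V T S : Type} [CompleteLattice S] (M : S → Set V) (Inv : S → Prop)
    (Task : T → S → Prop)
    (step : ∀ s, Inv s → #(M s) < #T → ∀ t, ∃ s', s ≤ s' ∧ Inv s' ∧ (M s' \ M s).Finite ∧ Task t s')
    (t : T) (s : S) (h : Inv s) (h' : #(M s) < #T) : Task t (next M Inv Task step t s) := by
  unfold next
  rw [dif_pos ⟨h, h'⟩]
  exact (Classical.choose_spec (step s h h' t)).2.2.2

/-- A transfinite construction of length `#T`, adding finitely many points at each stage. -/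
theorem transfinite {V T S : Type} [CompleteLattice S] (M : S → Set V)
    (hM : ∀ (ι : Type) (f : ι → S), M (⨆ i, f i) = ⋃ i, M (f i))
    (Inv : S → Prop)
    (hchain : ∀ (ι : Type) [LinearOrder ι] (f : ι → S), Monotone f → (∀ i, Inv (f i)) →
      Inv (⨆ i, f i))
    (Task : T → S → Prop) (htask : ∀ t s s', s ≤ s' → Task t s → Task t s')
    (step : ∀ s, Inv s → #(M s) < #T → ∀ t, ∃ s', s ≤ s' ∧ Inv s' ∧ (M s' \ M s).Finite ∧ Task t s')
    (hT : ℵ₀ < #T) : ∃ s, Inv s ∧ ∀ t, Task t s := by
  obtain ⟨lo, wo, hr⟩ := Cardinal.exists_ord_eq_type_lt T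
  have hIio : ∀ t : T, #(Iio t) < #T := fun t => mk_Iio_lt t hr
  let nx := next M Inv Task step
  let s : T → S := WellFounded.fix (C := fun _ => S) (wellFounded_lt (α := T))
    (fun t ih => ⨆ u : Iio t, nx u.1 (ih u.1 u.2))
  have hs : ∀ t, s t = ⨆ u : Iio t, nx u.1 (s u.1) := by
    intro t
    exact WellFounded.fix_eq _ _ _
  have h1 : ∀ t u, u < t → nx u (s u) ≤ s t := by
    intro t u hut
    rw [hs t]
    exact le_iSup (fun u : Iio t => nx u.1 (s u.1)) ⟨u, hut⟩
  have h2 : Monotone fun t => nx t (s t) := by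
    intro u t hut
    rcases hut.lt_or_eq with h | h
    · exact (h1 t u h).trans (le_next _ _ _ _ _ _)
    · rw [h]
  have h3 : ∀ t, Inv (s t) := by
    intro t
    induction t using WellFoundedLT.induction with
    | ind t ih =>
      rw [hs t]
      refine hchain _ _ ?_ ?_
      · intro a b hab
        exact h2 hab
      · intro u
        exact next_inv _ _ _ _ _ _ (ih u.1 u.2)
  have h4 : ∀ t, M (s t) ⊆ ⋃ u : Iio t, (M (nx u.1 (s u.1)) \ M (s u.1)) := by
    intro t
    induction t using WellFoundedLT.induction with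
    | ind t ih =>
      intro x hx
      rw [hs t, hM, mem_iUnion] at hx
      obtain ⟨u, hu⟩ := hx
      by_cases hxu : x ∈ M (s u.1)
      · have := ih u.1 u.2 hxu
        rw [mem_iUnion] at this ⊢
        obtain ⟨v, hv⟩ := this
        exact ⟨⟨v.1, lt_trans v.2 u.2⟩, hv⟩
      · exact mem_iUnion.2 ⟨u, hu, hxu⟩
  have h5 : ∀ t, #(M (s t)) < #T := by
    intro t
    refine (mk_le_mk_of_subset (h4 t)).trans_lt ?_
    refine (mk_iUnion_le _).trans_lt ?_
    refine mul_lt_of_lt hT.le (hIio t) ?_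
    refine lt_of_le_of_lt (ciSup_le' fun u => ?_) hT
    exact (next_fin M Inv Task step u.1 (s u.1)).countable.le_aleph0
  refine ⟨⨆ t, nx t (s t), hchain _ _ h2 fun t => next_inv _ _ _ _ _ _ (h3 t), fun t => ?_⟩
  exact htask t _ _ (le_iSup (fun t => nx t (s t)) t) (next_task _ _ _ _ _ _ (h3 t) (h5 t))

end Pool.Agent.Lib.MP_04172d_lc
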